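import Pool.Agent.Helper79.GL4.GoalsB

set_option linter.unusedVariables false
set_option linter.unusedSectionVars false

namespace Pool.Agent.Helper32.GL4POL1

open GL4 Module Submodule

section gen
variable {F : Type} [Field F] {W : Type} [AddCommGroup W] [Module F W] [FiniteDimensional F W]

/-- the number of subspaces of dimension `dim A + 1` between `A` and `C`. -/
theorem bet_card [Finite F] {A C : Submodule F W} (h : A ≤ C) :
    Nat.card {Z : Submodule F W // A ≤ Z ∧ Z ≤ C ∧ finrank F Z = finrank F A + 1} =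
      br (Nat.card F) (finrank F C - finrank F A) := by
  have h1 : finrank F (C.map A.mkQ) = finrank F C - finrank F A := by
    have := finrank_down h
    omega
  rw [← h1, ← card_pts_le]
  refine Nat.card_congr ?_
  refine { toFun := fun Z => ⟨Z.1.map A.mkQ, ?_, ?_⟩
           invFun := fun Z => ⟨Z.1.comap A.mkQ, ?_, ?_, ?_⟩
           left_inv := ?_, right_inv := ?_ }
  · have := finrank_down Z.2.1
    have h2 := Z.2.2.2
    rw [Pt]
    omega
  · rw [down_le_down h]
    exact Z.2.2.1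
  · exact le_up _
  · have h3 : Z.1 ≤ C.map A.mkQ := Z.2.2
    have h4 := (up_le_up (P := A)).2 h3
    rwa [up_down h] at h4
  · rw [finrank_up, add_comm]
    have := Z.2.1
    rw [Pt] at this
    rw [this]
  · rintro ⟨Z, h1, h2, h3⟩
    exact Subtype.ext (up_down h1)
  · rintro ⟨Z, h1, h2⟩
    exact Subtype.ext (down_up Z)

theorem sup_eq_ln {Y y z : Submodule F W} (hY : Ln Y) (hy : Pt y) (hz : Pt z) (hyY : y ≤ Y)
    (hzY : z ≤ Y) (h : y ≠ z) : y ⊔ z = Y := by
  apply Submodule.eq_of_le_of_finrank_eq (sup_le hyY hzY)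
  rw [ln_sup hy hz h, hY]

theorem exists_other {Y y : Submodule F W} (hY : 2 ≤ finrank F Y) (hy : Pt y) :
    ∃ z, Pt z ∧ z ≤ Y ∧ z ≠ y := by
  have h : ¬ Y ≤ y := by
    intro h
    have := Submodule.finrank_mono h
    rw [hy] at this
    omega
  obtain ⟨z, h1, h2, h3⟩ := exists_pt_not_le h
  exact ⟨z, h1, h2, fun e => h3 e.le⟩

end gen

section pg
variable {F : Type} [Field F] [Finite F] {W : Type} [AddCommGroup W] [Module F W]
  [FiniteDimensional F W] {B N : Submodule F W → Submodule F W}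

/-- special lines -/
theorem spec_all (hP : PG B N) {y Y u : Submodule F W} (hy : Pt y) (hY : Ln Y) (hyY : y ≤ Y)
    (hYN : Y ≤ N y) (hu : Pt u) (huY : u ≤ Y) : Y ≤ N u := by
  by_cases h : y = u
  · rw [← h]; exact hYN
  · rw [← sup_eq_ln hY hy hu hyY huY h]
    exact sup_le (hP.symN y u hy hu (huY.trans hYN)) (hP.selfN u hu)

theorem dimR (hP : PG B N) {y z : Submodule F W} (hy : Pt y) (hz : Pt z) (h : z ≤ N y)
    (hne : z ≠ y) : finrank F ↥(B y ⊓ B z) + 3 = finrank F W := by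
  have h1 := Submodule.finrank_sup_add_finrank_inf_eq (B y) (B z)
  have h2 := hP.supB y z hy hz h hne
  have h3 := hP.dimB y hy
  have h4 := hP.dimB z hz
  omega

/-- `R_Y ≤ B u` for all points `u` of `Y`. -/
theorem R_le (hP : PG B N) {y z u : Submodule F W} (hy : Pt y) (hz : Pt z) (hu : Pt u)
    (huY : u ≤ y ⊔ z) : B y ⊓ B z ≤ B u := by
  apply le_of_pts
  intro v hv hvR
  have h1 := hP.symB y v hy hv (hvR.trans inf_le_left)
  have h2 := hP.symB z v hz hv (hvR.trans inf_le_right)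
  exact hP.symB v u hv hu (huY.trans (sup_le h1 h2))

theorem le_R_iff (hP : PG B N) {y z x : Submodule F W} (hy : Pt y) (hz : Pt z) (hx : Pt x) :
    y ⊔ z ≤ B x ↔ x ≤ B y ⊓ B z := by
  constructor
  · intro h
    exact le_inf (hP.symB x y hx hy (le_sup_left.trans h)) (hP.symB x z hx hz (le_sup_right.trans h))
  · intro h
    exact sup_le (hP.symB y x hy hx (h.trans inf_le_left)) (hP.symB z x hz hx (h.trans inf_le_right))

/-- every point of `H_Y` outside `R_Y` lies in some `B u`. -/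
theorem cover (hP : PG B N) {y z x : Submodule F W} (hy : Pt y) (hz : Pt z) (hzN : z ≤ N y)
    (hne : z ≠ y) (hx : Pt x) (hxH : x ≤ B y ⊔ B z) :
    ∃ u, Pt u ∧ u ≤ y ⊔ z ∧ x ≤ B u := by
  by_cases hxR : x ≤ B y ⊓ B z
  · exact ⟨y, hy, le_sup_left, hxR.trans inf_le_left⟩
  have hY : Ln (y ⊔ z) := ln_sup hy hz hne.symm
  have hYN : y ⊔ z ≤ N y := sup_le (hP.selfN y hy) hzN
  set R := B y ⊓ B z with hR
  set H := B y ⊔ B z with hH
  have hRH : R ≤ H := inf_le_left.trans le_sup_left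
  have hRd : finrank F R + 3 = finrank F W := dimR hP hy hz hzN hne
  have hHd : finrank F H + 1 = finrank F W := hP.supB y z hy hz hzN hne
  have hc := bet_card (F := F) hRH
  have hd : finrank F H - finrank F R = 2 := by omega
  rw [hd] at hc
  have hcY := card_pts_le (F := F) (y ⊔ z)
  rw [hY] at hcY
  have hBH : ∀ u, Pt u → u ≤ y ⊔ z → B u ≤ H := fun u hu huY =>
    hP.linB y z u hy hz hu hzN hne huY
  let f : {u : Submodule F W // Pt u ∧ u ≤ y ⊔ z} →
      {Z : Submodule F W // R ≤ Z ∧ Z ≤ H ∧ finrank F Z = finrank F R + 1} := fun u =>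
    ⟨B u.1, R_le hP hy hz u.2.1 u.2.2, hBH u.1 u.2.1 u.2.2, by
      have := hP.dimB u.1 u.2.1
      omega⟩
  have hf : Function.Injective f := by
    intro u u' h
    by_contra hcon
    have hne' : u'.1 ≠ u.1 := fun e => hcon (Subtype.ext e.symm)
    have h1 : B u.1 = B u'.1 := congrArg Subtype.val h
    have h2 : y ⊔ z ≤ N u.1 := spec_all hP hy hY le_sup_left hYN u.2.1 u.2.2
    have h3 := hP.supB u.1 u'.1 u.2.1 u'.2.1 (u'.2.2.trans h2) hne'
    rw [h1, sup_idem] at h3
    have := hP.dimB u'.1 u'.2.1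
    omega
  have hb : Function.Bijective f := by
    apply hf.bijective_of_nat_card_le
    rw [hc, hcY]
  obtain ⟨u, hu⟩ := hb.2 ⟨R ⊔ x, le_sup_left, sup_le hRH hxH, finrank_sup_pt hx hxR⟩
  have h4 : B u.1 = R ⊔ x := congrArg Subtype.val hu
  exact ⟨u.1, u.2.1, u.2.2, by rw [h4]; exact le_sup_right⟩

/-- the special lines at `y` -/
def SL (N : Submodule F W → Submodule F W) (y : Submodule F W) : Set (Submodule F W) :=
  {Y | Ln Y ∧ y ≤ Y ∧ Y ≤ N y}

theorem card_SL (hP : PG B N) {y : Submodule F W} (hy : Pt y) :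
    Nat.card {Y : Submodule F W // Ln Y ∧ y ≤ Y ∧ Y ≤ N y} = br (Nat.card F) 2 := by
  have h := bet_card (F := F) (hP.selfN y hy)
  have h1 : finrank F y = 1 := hy
  rw [hP.dimN y hy, h1] at h
  rw [show (3 - 1 : ℕ) = 2 from rfl] at h
  rw [← h]
  refine Nat.card_congr (Equiv.subtypeEquivRight fun Y => ?_)
  constructor
  · rintro ⟨h1, h2, h3⟩; exact ⟨h2, h3, h1⟩
  · rintro ⟨h1, h2, h3⟩; exact ⟨h3, h1, h2⟩

/-- every hyperplane containing `B y` is `H_Y` for some special line `Y` at `y`. -/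
theorem hyp_of (hP : PG B N) {y H : Submodule F W} (hy : Pt y) (hH : Hy H) (hBH : B y ≤ H) :
    ∃ z, Pt z ∧ z ≤ N y ∧ z ≠ y ∧ H = B y ⊔ B z := by
  classical
  have hz : ∀ Y : {Y : Submodule F W // Ln Y ∧ y ≤ Y ∧ Y ≤ N y}, ∃ z, Pt z ∧ z ≤ Y.1 ∧ z ≠ y :=
    fun Y => exists_other (by rw [Y.2.1]) hy
  choose z hz1 hz2 hz3 using hz
  have hyz : ∀ Y, y ⊔ z Y = Y.1 := fun Y =>
    sup_eq_ln Y.2.1 hy (hz1 Y) Y.2.2.1 (hz2 Y) (hz3 Y).symm
  let f : {Y : Submodule F W // Ln Y ∧ y ≤ Y ∧ Y ≤ N y} →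
      {H : Submodule F W // Hy H ∧ B y ≤ H} := fun Y =>
    ⟨B y ⊔ B (z Y), hP.supB y (z Y) hy (hz1 Y) ((hz2 Y).trans Y.2.2.2) (hz3 Y), le_sup_left⟩
  have hf : Function.Injective f := by
    intro Y Y' h
    have h1 : B y ⊔ B (z Y) = B y ⊔ B (z Y') := congrArg Subtype.val h
    have h2 : z Y' ≤ y ⊔ z Y := by
      apply hP.injH y (z Y) (z Y') hy (hz1 Y) (hz1 Y') ((hz2 Y).trans Y.2.2.2) (hz3 Y)
        ((hz2 Y').trans Y'.2.2.2)
      rw [h1]
      exact le_sup_right
    have h3 : y ⊔ z Y' ≤ y ⊔ z Y := sup_le le_sup_left h2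
    rw [hyz, hyz] at h3
    apply Subtype.ext
    exact (Submodule.eq_of_le_of_finrank_eq h3 (by rw [Y.2.1, Y'.2.1])).symm
  have hb : Function.Bijective f := by
    apply hf.bijective_of_nat_card_le
    rw [card_SL hP hy, card_hys_ge]
    have := hP.dimB y hy
    rw [show finrank F W - finrank F (B y) = 2 by omega]
  obtain ⟨Y, hY⟩ := hb.2 ⟨H, hH, hBH⟩
  refine ⟨z Y, hz1 Y, (hz2 Y).trans Y.2.2.2, hz3 Y, ?_⟩
  exact (congrArg Subtype.val hY).symm

/-- step (1) -/
theorem step1 (hP : PG B N) {x y : Submodule F W} (hx : Pt x) (hy : Pt y) (h : ¬ y ≤ B x) :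
    finrank F ↥(N y ⊓ B x) = 1 := by
  have hxy : ¬ x ≤ B y := fun h' => h (hP.symB y x hy hx h')
  have hH : Hy (B y ⊔ x) := by
    rw [Hy, finrank_sup_pt hx hxy]
    have := hP.dimB y hy
    omega
  obtain ⟨z, hz, hzN, hzy, he⟩ := hyp_of hP hy hH le_sup_left
  obtain ⟨u, hu, huY, hxu⟩ := cover hP hy hz hzN hzy hx (by rw [← he]; exact le_sup_right)
  have huN : u ≤ N y := huY.trans (sup_le (hP.selfN y hy) hzN)
  have hux : u ≤ B x := hP.symB u x hu hx hxu
  have huI : u ≤ N y ⊓ B x := le_inf huN hux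
  have h1 : 1 ≤ finrank F ↥(N y ⊓ B x) := by
    have := Submodule.finrank_mono huI
    rwa [hu] at this
  by_contra hcon
  obtain ⟨u', hu', hu'I, hne⟩ := exists_other (Y := N y ⊓ B x) (by omega) hu
  have hu'N := hu'I.trans inf_le_left
  have hu'x := hu'I.trans inf_le_right
  have hxu' := hP.symB x u' hx hu' hu'x
  have huy : u ≠ y := by rintro rfl; exact h hux
  have hu'y : u' ≠ y := by rintro rfl; exact h hu'x
  have e1 : B y ⊔ x = B y ⊔ B u := by
    apply Submodule.eq_of_le_of_finrank_eq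
    · exact sup_le le_sup_left (hxu.trans le_sup_right)
    · have a1 := hP.supB y u hy hu huN huy
      rw [Hy] at hH
      omega
  have e2 : B y ⊔ x = B y ⊔ B u' := by
    apply Submodule.eq_of_le_of_finrank_eq
    · exact sup_le le_sup_left (hxu'.trans le_sup_right)
    · have a1 := hP.supB y u' hy hu' hu'N hu'y
      rw [Hy] at hH
      omega
  have h2 : u' ≤ y ⊔ u := by
    apply hP.injH y u u' hy hu hu' huN huy hu'N
    rw [← e1, e2]
    exact le_sup_right
  have hL : Ln (y ⊔ u) := ln_sup hy hu huy.symm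
  have h3 : u ⊔ u' = y ⊔ u := sup_eq_ln hL hu hu' le_sup_right h2 hne.symm
  apply h
  calc y ≤ y ⊔ u := le_sup_left
    _ = u ⊔ u' := h3.symm
    _ ≤ B x := sup_le hux hu'x

theorem mem_Be2 {x v : Submodule F W} :
    v ≤ Be B N 2 x ↔ ∀ w, Pt w → w ≤ N x → v ≤ B w := by
  change v ≤ (⨅ w : {w : Submodule F W // Pt w ∧ w ≤ N x}, B w.1) ↔ _
  rw [le_iInf_iff]
  constructor
  · intro h w h1 h2
    exact h ⟨w, h1, h2⟩
  · intro h w
    exact h w.1 w.2.1 w.2.2

/-- the dimension of `Be 2 x` is constant -/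
theorem dimBe2_const {G : Subgroup (W ≃ₗ[F] W)} (hN : NN G 2 N) (hT : PtTrans G)
    (hE : ∀ g ∈ G, ∀ x, Pt x → B (im g x) = im g (B x)) {x y : Submodule F W} (hx : Pt x)
    (hy : Pt y) : finrank F (Be B N 2 x) = finrank F (Be B N 2 y) := by
  have key : ∀ x y : Submodule F W, Pt x → Pt y →
      finrank F (Be B N 2 x) ≤ finrank F (Be B N 2 y) := by
    intro x y hx hy
    obtain ⟨g, hg, hgx⟩ := hT x y hx hy
    have h1 : im g (Be B N 2 x) ≤ Be B N 2 y := by
      rw [mem_Be2]
      intro w hw hwN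
      have h2 : im g (im g⁻¹ w) = w := im_im_inv g w
      have h3 : Pt (im g⁻¹ w) := hw.im
      have h4 : im g⁻¹ w ≤ N x := by
        rw [← hgx, hN.eqN g hg x hx] at hwN
        have := im_mono g⁻¹ hwN
        rwa [im_inv_im] at this
      rw [← h2, hE g hg _ h3]
      apply im_mono
      exact mem_Be2.1 le_rfl _ h3 h4
    have h5 := Submodule.finrank_mono h1
    rwa [finrank_im] at h5
  exact le_antisymm (key x y hx hy) (key y x hy hx)

open scoped Classical in
/-- the counting of triples `(x, y, Y)` -/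
theorem triples [Fintype (Submodule F W)] (hP : PG B N) :
    ∑ x ∈ Finset.univ.filter (fun x : Submodule F W => Pt x),
      ∑ y ∈ Finset.univ.filter (fun x : Submodule F W => Pt x),
        (Finset.univ.filter (fun Y : Submodule F W =>
          (Ln Y ∧ y ≤ Y ∧ Y ≤ N y) ∧ Y ≤ B x)).card =
      br (Nat.card F) (finrank F W) * (br (Nat.card F) 2 * br (Nat.card F) (finrank F W - 3)) := by
  rw [Finset.sum_comm]
  have hPc : (Finset.univ.filter (fun x : Submodule F W => Pt x)).card =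
      br (Nat.card F) (finrank F W) := by
    rw [← card_pts (F := F) (V := W), Nat.card_eq_fintype_card, Fintype.card_subtype]
  rw [← hPc, ← smul_eq_mul, ← Finset.sum_const]
  refine Finset.sum_congr rfl fun y hy => ?_
  rw [Finset.mem_filter] at hy
  have hy := hy.2
  have h1 : ∀ x : Submodule F W, (Finset.univ.filter (fun Y : Submodule F W =>
          (Ln Y ∧ y ≤ Y ∧ Y ≤ N y) ∧ Y ≤ B x)).card =
      ∑ Y ∈ Finset.univ.filter (fun Y : Submodule F W => Ln Y ∧ y ≤ Y ∧ Y ≤ N y),
        if Y ≤ B x then 1 else 0 := by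
    intro x
    rw [← Finset.card_filter, Finset.filter_filter]
  rw [Finset.sum_congr rfl (fun x _ => h1 x), Finset.sum_comm]
  have hSc : (Finset.univ.filter (fun Y : Submodule F W => Ln Y ∧ y ≤ Y ∧ Y ≤ N y)).card =
      br (Nat.card F) 2 := by
    rw [← card_SL hP hy, Nat.card_eq_fintype_card, Fintype.card_subtype]
  rw [← hSc, ← smul_eq_mul, ← Finset.sum_const]
  refine Finset.sum_congr rfl fun Y hY => ?_
  rw [Finset.mem_filter] at hY
  obtain ⟨-, hY1, hY2, hY3⟩ := hY
  rw [← Finset.card_filter, Finset.filter_filter]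
  obtain ⟨z, hz, hzY, hzy⟩ := exists_other (Y := Y) (by rw [hY1]) hy
  have hyz : y ⊔ z = Y := sup_eq_ln hY1 hy hz hY2 hzY hzy.symm
  have hRd : finrank F ↥(B y ⊓ B z) + 3 = finrank F W :=
    dimR hP hy hz (hzY.trans hY3) hzy
  rw [show finrank F W - 3 = finrank F ↥(B y ⊓ B z) by omega, ← card_pts_le,
    Nat.card_eq_fintype_card, Fintype.card_subtype]
  congr 1
  ext x
  simp only [Finset.mem_filter, Finset.mem_univ, true_and]
  constructor
  · rintro ⟨h2, h3⟩
    rw [← hyz] at h3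
    exact ⟨h2, (le_R_iff hP hy hz h2).1 h3⟩
  · rintro ⟨h2, h3⟩
    refine ⟨h2, ?_⟩
    rw [← hyz]
    exact (le_R_iff hP hy hz h2).2 h3

/-- at most one special line at `y` inside `B x` if `N y` is not inside `B x`. -/
theorem two_spec (hP : PG B N) {x y Y Y' : Submodule F W} (hy : Pt y) (hY : Ln Y)
    (hyY : y ≤ Y) (hYN : Y ≤ N y) (hY' : Ln Y') (hyY' : y ≤ Y') (hYN' : Y' ≤ N y)
    (h : Y ≤ B x) (h' : Y' ≤ B x) (hne : Y ≠ Y') : N y ≤ B x := by
  have h1 : Y < Y ⊔ Y' := by
    refine lt_of_le_of_ne le_sup_left fun e => hne ?_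
    have h2 : Y' ≤ Y := by rw [e]; exact le_sup_right
    exact (Submodule.eq_of_le_of_finrank_eq h2 (by rw [hY, hY'])).symm
  have h2 := Submodule.finrank_lt_finrank_of_lt h1
  rw [hY] at h2
  have h3 : Y ⊔ Y' = N y := by
    apply Submodule.eq_of_le_of_finrank_le (sup_le hYN hYN')
    rw [hP.dimN y hy]
    omega
  rw [← h3]
  exact sup_le h h'

theorem pol1 (hS : GL4.SYMC) : GL4.POL1 := by
  intro F _ _ W _ _ _ G B N hP hN hT hE hm hstab
  classical
  have : Fintype (Submodule F W) := Fintype.ofFinite _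
  obtain ⟨hS1, hS2, hS3⟩ := hS F W B N hP
  set q := Nat.card F with hq
  have hq2 : 2 ≤ q := Finite.one_lt_card
  -- a point
  have hpt : ∃ x : Submodule F W, Pt x := by
    have h1 : (⊤ : Submodule F W) ≠ ⊥ := by
      intro h
      have := congrArg (fun U : Submodule F W => finrank F U) h
      simp only [finrank_top, finrank_bot] at this
      omega
    obtain ⟨x, hx, -⟩ := exists_pt_le h1
    exact ⟨x, hx⟩
  obtain ⟨x0, hx0⟩ := hpt
  set b := finrank F (Be B N 2 x0) with hb
  have hbc : ∀ x, Pt x → finrank F (Be B N 2 x) = b := fun x hx =>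
    dimBe2_const hN hT hE hx hx0
  -- iff
  have h2iff : ∀ x y, Pt x → Pt y → (y ≤ Be B N 2 x ↔ N y ≤ B x) := fun x y hx hy =>
    hS3 1 x y le_rfl hx hy
  have h21 : ∀ x, Pt x → Be B N 2 x ≤ B x := fun x hx => hS2 1 x hx
  -- upper bound
  set P : Finset (Submodule F W) := Finset.univ.filter (fun x : Submodule F W => Pt x) with hPdef
  let ep : Submodule F W → Submodule F W → ℕ := fun x y =>
    (Finset.univ.filter (fun Y : Submodule F W => (Ln Y ∧ y ≤ Y ∧ Y ≤ N y) ∧ Y ≤ B x)).card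
  let bd : Submodule F W → Submodule F W → ℕ := fun x y =>
    (if y ≤ Be B N 2 x then q else 0) + (if y ≤ B x then 1 else 0)
  have hle : ∀ x ∈ P, ∀ y ∈ P, ep x y ≤ bd x y := by
    intro x hx y hy
    rw [hPdef, Finset.mem_filter] at hx hy
    have hx := hx.2
    have hy := hy.2
    by_cases h1 : y ≤ Be B N 2 x
    · have h2 : y ≤ B x := h1.trans (h21 x hx)
      simp only [bd, if_pos h1, if_pos h2]
      have h3 : ep x y ≤ Nat.card {Y : Submodule F W // Ln Y ∧ y ≤ Y ∧ Y ≤ N y} := by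
        rw [Nat.card_eq_fintype_card, Fintype.card_subtype]
        apply Finset.card_le_card
        intro Y hY
        simp only [Finset.mem_filter, Finset.mem_univ, true_and] at hY ⊢
        exact hY.1
      rw [card_SL hP hy] at h3
      have h4 : br (Nat.card F) 2 = q + 1 := by
        rw [br_succ', br_one]; omega
      omega
    · have h1' : ¬ N y ≤ B x := fun h => h1 ((h2iff x y hx hy).2 h)
      by_cases h2 : y ≤ B x
      · simp only [bd, if_neg h1, if_pos h2]
        rw [zero_add]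
        apply Finset.card_le_one.2
        intro Y hY Y' hY'
        simp only [Finset.mem_filter, Finset.mem_univ, true_and] at hY hY'
        by_contra hne
        exact h1' (two_spec hP hy hY.1.1 hY.1.2.1 hY.1.2.2 hY'.1.1 hY'.1.2.1 hY'.1.2.2 hY.2 hY'.2
          hne)
      · simp only [bd, if_neg h1, if_neg h2]
        rw [Nat.le_zero, Finset.card_eq_zero, Finset.filter_eq_empty_iff]
        rintro Y - ⟨⟨-, h3, -⟩, h4⟩
        exact h2 (h3.trans h4)
  have hT1 : ∑ x ∈ P, ∑ y ∈ P, ep x y =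
      br q (finrank F W) * (br q 2 * br q (finrank F W - 3)) := triples hP
  have hPc : P.card = br q (finrank F W) := by
    rw [hPdef, ← card_pts (F := F) (V := W), Nat.card_eq_fintype_card, Fintype.card_subtype]
  have hcard : ∀ U : Submodule F W, (P.filter (fun y => y ≤ U)).card = br q (finrank F U) := by
    intro U
    rw [hPdef, Finset.filter_filter, ← card_pts_le, Nat.card_eq_fintype_card, Fintype.card_subtype]
  have hT2 : ∑ x ∈ P, ∑ y ∈ P, bd x y =
      br q (finrank F W) * (q * br q b + br q (finrank F W - 2)) := by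
    rw [← hPc, ← smul_eq_mul, ← Finset.sum_const]
    refine Finset.sum_congr rfl fun x hx => ?_
    rw [hPdef, Finset.mem_filter] at hx
    have hx := hx.2
    simp only [bd]
    rw [Finset.sum_add_distrib, ← Finset.sum_filter, Finset.sum_const, smul_eq_mul,
      ← Finset.card_filter, hcard, hcard, hbc x hx, mul_comm]
    have := hP.dimB x hx
    rw [show finrank F W - 2 = finrank F (B x) by omega]
  have hmpos : 0 < br q (finrank F W) := br_pos (by omega)
  obtain ⟨j, hj⟩ : ∃ j, finrank F W = j + 5 := ⟨finrank F W - 5, by omega⟩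
  have e2 : br q 2 = q + 1 := by rw [br_succ', br_one]; omega
  have e3 : br q (finrank F W - 2) = q * br q (j + 2) + 1 := by
    rw [show finrank F W - 2 = (j + 2) + 1 by omega, br_succ']
  have e4 : br q (finrank F W - 3) = br q (j + 2) := by
    rw [show finrank F W - 3 = j + 2 by omega]
  -- lower bound for b
  have hbl : j + 1 ≤ b := by
    have h1 : ∑ x ∈ P, ∑ y ∈ P, ep x y ≤ ∑ x ∈ P, ∑ y ∈ P, bd x y :=
      Finset.sum_le_sum fun x hx => Finset.sum_le_sum fun y hy => hle x hx y hy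
    rw [hT1, hT2] at h1
    have h2 := Nat.le_of_mul_le_mul_left h1 hmpos
    rw [e2, e3, e4] at h2
    have h3 : br q (j + 2) ≤ br q (b + 1) := by
      rw [br_succ' q b]
      nlinarith
    by_contra hcon
    have h4 : br q (b + 1) < br q (j + 2) := br_strictMono (by omega) (by omega)
    omega
  -- upper bound for b
  have hRle : ∀ x y, Pt x → Pt y → y ≤ N x → Be B N 2 x ≤ B x ⊓ B y := by
    intro x y hx hy hyN
    exact le_inf (h21 x hx) (mem_Be2.1 le_rfl y hy hyN)
  have hex : ∀ x, Pt x → ∃ y, Pt y ∧ y ≤ N x ∧ y ≠ x := fun x hx =>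
    exists_other (by rw [hP.dimN x hx]; omega) hx
  have hbu : b ≤ j + 2 := by
    obtain ⟨y, hy, hyN, hne⟩ := hex x0 hx0
    have h1 := Submodule.finrank_mono (hRle x0 y hx0 hy hyN)
    have h2 := dimR hP hx0 hy hyN hne
    omega
  have hbne : b ≠ j + 2 := by
    intro hbe
    have hconst : ∀ x y, Pt x → Pt y → y ≤ N x → Be B N 2 y = Be B N 2 x := by
      intro x y hx hy hyN
      by_cases hne : y = x
      · rw [hne]
      · have h2 := dimR hP hx hy hyN hne
        have h3 : Be B N 2 x = B x ⊓ B y := by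
          apply Submodule.eq_of_le_of_finrank_eq (hRle x y hx hy hyN)
          rw [hbc x hx]
          omega
        have h4 : Be B N 2 y = B y ⊓ B x := by
          apply Submodule.eq_of_le_of_finrank_eq (hRle y x hy hx (hP.symN x y hx hy hyN))
          rw [hbc y hy, inf_comm]
          omega
        rw [h3, h4, inf_comm]
    have h5 : ∀ x, Pt x → Be B N (2 + 1) x = Be B N 2 x := by
      intro x hx
      change (⨅ w : {w : Submodule F W // Pt w ∧ w ≤ N x}, Be B N 2 w.1) = _
      apply le_antisymm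
      · exact iInf_le_of_le ⟨x, hx, hP.selfN x hx⟩ le_rfl
      · rw [le_iInf_iff]
        intro w
        rw [hconst x w.1 hx w.2.1 w.2.2]
    have h6 := hstab 2 (by omega) h5 x0 hx0
    rw [hb, h6, finrank_bot] at hbe
    omega
  have hbeq : b = j + 1 := by omega
  refine ⟨fun x hx => by rw [hbc x hx]; omega, ?_⟩
  intro x y hx hy
  refine ⟨fun h => absurd le_top h, fun _ h => step1 hP hx hy h, fun h1 h2 => ?_, h2iff x y hx hy⟩
  change y ≤ B x at h1
  change ¬ y ≤ Be B N 2 x at h2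
  change finrank F ↥(N y ⊓ B x) = 2
  have h3 : ¬ N y ≤ B x := fun h => h2 ((h2iff x y hx hy).2 h)
  -- there is a special line at `y` inside `B x`
  have h4 : ∃ Y, Ln Y ∧ y ≤ Y ∧ Y ≤ N y ∧ Y ≤ B x := by
    by_contra hcon
    have h5 : ∑ x ∈ P, ∑ y ∈ P, ep x y < ∑ x ∈ P, ∑ y ∈ P, bd x y := by
      have hxP : x ∈ P := by rw [hPdef, Finset.mem_filter]; exact ⟨Finset.mem_univ _, hx⟩
      have hyP : y ∈ P := by rw [hPdef, Finset.mem_filter]; exact ⟨Finset.mem_univ _, hy⟩
      refine Finset.sum_lt_sum (fun x hx => Finset.sum_le_sum fun y hy => hle x hx y hy)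
        ⟨x, hxP, Finset.sum_lt_sum (fun y hy => hle x hxP y hy) ⟨y, hyP, ?_⟩⟩
      have h6 : ep x y = 0 := by
        change Finset.card _ = 0
        rw [Finset.card_eq_zero, Finset.filter_eq_empty_iff]
        rintro Y - ⟨⟨a1, a2, a3⟩, a4⟩
        exact hcon ⟨Y, a1, a2, a3, a4⟩
      rw [h6]
      simp only [bd, if_neg h2, if_pos h1]
      omega
    rw [hT1, hT2] at h5
    have h7 := Nat.lt_of_mul_lt_mul_left h5
    rw [e2, e3, e4, hbeq, show j + 2 = (j + 1) + 1 from rfl, br_succ' q (j + 1)] at h7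
    nlinarith
  obtain ⟨Y, hY1, hY2, hY3, hY4⟩ := h4
  have h5 := Submodule.finrank_mono (le_inf hY3 hY4)
  rw [hY1] at h5
  have h6 : N y ⊓ B x < N y := by
    refine lt_of_le_of_ne inf_le_left fun e => h3 ?_
    rw [← e]
    exact inf_le_right
  have h7 := Submodule.finrank_lt_finrank_of_lt h6
  rw [hP.dimN y hy] at h7
  omega

end pg

end Pool.Agent.Helper32.GL4POL1
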