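import Pool.Agent.Helper79.GL4.GoalsA

set_option linter.unusedVariables false

namespace Pool.Agent.Helper32.GL4TRV

open GL4 Module Submodule

theorem num (p q n r M : ℕ) (hp : p.Prime) (hq : ∃ e, q = p ^ e) (hq2 : 2 ≤ q) (hn : 3 ≤ n)
    (hr2 : 2 ≤ r) (hrq : r ∣ q) (hM : ∃ b, M = p ^ b) (hrM : r ∣ M)
    (h : ((q : ℤ) - 1) * (M - 1) = ((q : ℤ) ^ (n - 1) - 1) * (r - 1)) : r = q := by
  by_contra hne
  obtain ⟨t, ht⟩ := hrq
  obtain ⟨m, hm⟩ := hrM
  obtain ⟨e, he⟩ := hq
  obtain ⟨b, hb⟩ := hM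
  have htp : ∃ k, k ≤ e ∧ t = p ^ k := (Nat.dvd_prime_pow hp).1 (he ▸ ht ▸ Dvd.intro_left r rfl)
  have hmp : ∃ k, k ≤ b ∧ m = p ^ k := (Nat.dvd_prime_pow hp).1 (hb ▸ hm ▸ Dvd.intro_left r rfl)
  obtain ⟨k, -, hk⟩ := htp
  obtain ⟨l, -, hl⟩ := hmp
  have hk0 : k ≠ 0 := by
    rintro rfl
    rw [pow_zero] at hk
    rw [hk, mul_one] at ht
    exact hne ht.symm
  have hpt : (p : ℤ) ∣ t := by
    rw [hk]
    push_cast
    exact dvd_pow_self _ hk0
  obtain ⟨j, rfl⟩ : ∃ j, n = j + 3 := ⟨n - 3, by omega⟩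
  have h1 : j + 3 - 1 = (j + 1) + 1 := by omega
  rw [h1, pow_succ, hm] at h
  set Q : ℤ := (q : ℤ) ^ (j + 1) with hQ
  have hqz : (q : ℤ) = r * t := by rw [ht]; push_cast; ring
  rw [hqz] at h
  have hr0 : (r : ℤ) ≠ 0 := by
    have : (2 : ℤ) ≤ r := by exact_mod_cast hr2
    omega
  have ht0 : (t : ℤ) ≠ 0 := by
    intro h0
    rw [h0, mul_zero] at hqz
    have : (2 : ℤ) ≤ q := by exact_mod_cast hq2
    omega
  have key : (r : ℤ) * t * m - t - m = r * t * Q - t * Q - 1 := by
    apply mul_left_cancel₀ hr0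
    push_cast at h
    linear_combination h
  have hl0 : l = 0 := by
    by_contra hl0
    have hpm : (p : ℤ) ∣ m := by
      rw [hl]
      push_cast
      exact dvd_pow_self _ hl0
    have : (p : ℤ) ∣ 1 := by
      have e1 : (1 : ℤ) = t * (r * Q - Q - r * m + 1) + m := by linear_combination key
      rw [e1]
      exact dvd_add (Dvd.dvd.mul_right hpt _) hpm
    have h2 := Int.natAbs_dvd_natAbs.2 this
    simp at h2
    exact hp.one_lt.ne' h2
  have hm1 : (m : ℤ) = 1 := by rw [hl, hl0]; simp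
  rw [hm1] at key
  have h3 : (t : ℤ) * ((r - 1) * (Q - 1)) = 0 := by linear_combination -key
  have h4 : ((r : ℤ) - 1) * (Q - 1) = 0 := by
    rcases mul_eq_zero.1 h3 with h | h
    · exact absurd h ht0
    · exact h
  have hr2' : (2 : ℤ) ≤ r := by exact_mod_cast hr2
  have hq2' : (2 : ℤ) ≤ q := by exact_mod_cast hq2
  have hQ2 : (2 : ℤ) ≤ Q := by
    rw [hQ, pow_succ]
    have : (1 : ℤ) ≤ (q : ℤ) ^ j := one_le_pow₀ (by omega)
    nlinarith
  rcases mul_eq_zero.1 h4 with h | h <;> omega

variable {F : Type} [Field F] {V : Type} [AddCommGroup V] [Module F V]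
  {K : Subgroup (V ≃ₗ[F] V)}

/-- the transvection `v ↦ v + f v • u` belongs to `K` -/
def InK (K : Subgroup (V ≃ₗ[F] V)) (f : Dual F V) (u : V) : Prop :=
  ∃ g ∈ K, ∀ v, g v = v + f v • u

theorem InK.zero (u : V) : InK K 0 u := ⟨1, K.one_mem, fun v => by simp⟩

theorem InK.add {f f' : Dual F V} {u : V} (h0 : f u = 0) (h : InK K f u) (h' : InK K f' u) :
    InK K (f + f') u := by
  obtain ⟨g, hg, hgv⟩ := h
  obtain ⟨g', hg', hgv'⟩ := h'
  refine ⟨g * g', K.mul_mem hg hg', fun v => ?_⟩
  rw [LinearEquiv.mul_apply, hgv', hgv, map_add, map_smul, h0, smul_zero, add_zero,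
    LinearMap.add_apply, add_smul, add_assoc, add_comm (f' v • u)]

theorem InK.neg {f : Dual F V} {u : V} (h0 : f u = 0) (h : InK K f u) : InK K (-f) u := by
  obtain ⟨g, hg, hgv⟩ := h
  refine ⟨g⁻¹, K.inv_mem hg, fun v => ?_⟩
  have h1 : g (v + (-f) v • u) = v := by
    rw [hgv, map_add, map_smul, h0, smul_zero, add_zero, LinearMap.neg_apply, neg_smul]
    abel
  have h2 : g (g⁻¹ v) = v := g.apply_symm_apply v
  exact g.injective (h2.trans h1.symm)

theorem InK.conj {f : Dual F V} {u : V} (h : InK K f u) {g : V ≃ₗ[F] V} (hg : g ∈ K) :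
    InK K (f ∘ₗ (g⁻¹ : V ≃ₗ[F] V).toLinearMap) (g u) := by
  obtain ⟨k, hk, hkv⟩ := h
  refine ⟨g * k * g⁻¹, K.mul_mem (K.mul_mem hg hk) (K.inv_mem hg), fun v => ?_⟩
  rw [LinearEquiv.mul_apply, LinearEquiv.mul_apply, hkv, map_add, map_smul]
  have h2 : g (g⁻¹ v) = v := g.apply_symm_apply v
  rw [h2]
  rfl

theorem InK.smul {f : Dual F V} {u : V} {c : F} (h : InK K f (c • u)) : InK K (c • f) u := by
  obtain ⟨k, hk, hkv⟩ := h
  refine ⟨k, hk, fun v => ?_⟩
  rw [hkv, LinearMap.smul_apply, smul_eq_mul, smul_smul, mul_comm]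

/-- the functionals `f` vanishing at `u` with the transvection in `K` -/
def AU (K : Subgroup (V ≃ₗ[F] V)) (u : V) : AddSubgroup (Dual F V) where
  carrier := {f | f u = 0 ∧ InK K f u}
  zero_mem' := ⟨rfl, InK.zero u⟩
  add_mem' := by
    rintro a b ⟨h1, h2⟩ ⟨h3, h4⟩
    refine ⟨?_, h2.add h1 h4⟩
    rw [LinearMap.add_apply, h1, h3, add_zero]
  neg_mem' := by
    rintro a ⟨h1, h2⟩
    refine ⟨?_, h2.neg h1⟩
    rw [LinearMap.neg_apply, h1, neg_zero]

/-- the scalars `a` with the transvection of `a f`, `u` in `K` -/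
def AS (K : Subgroup (V ≃ₗ[F] V)) (u : V) (f : Dual F V) (h0 : f u = 0) : AddSubgroup F where
  carrier := {a | InK K (a • f) u}
  zero_mem' := by
    change InK K ((0 : F) • f) u
    rw [zero_smul]
    exact InK.zero u
  add_mem' := by
    intro a b h2 h4
    change InK K ((a + b) • f) u
    rw [add_smul]
    exact InK.add (by rw [LinearMap.smul_apply, h0, smul_zero]) h2 h4
  neg_mem' := by
    intro a h2
    change InK K ((-a) • f) u
    have e : (-a) • f = -(a • f) := by
      ext v
      simp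
    rw [e]
    exact InK.neg (by rw [LinearMap.smul_apply, h0, smul_zero]) h2

theorem mem_AS {u : V} {f : Dual F V} {h0 : f u = 0} {a : F} :
    a ∈ AS K u f h0 ↔ InK K (a • f) u := Iff.rfl

theorem mem_AU {u : V} {f : Dual F V} : f ∈ AU K u ↔ f u = 0 ∧ InK K f u := Iff.rfl

variable [Finite F] [FiniteDimensional F V]

theorem card_AS_le (hK : FlagPH K) {u u' : V} {f f' : Dual F V} (hu : u ≠ 0) (hu' : u' ≠ 0)
    (hf : f ≠ 0) (hf' : f' ≠ 0) (h0 : f u = 0) (h0' : f' u' = 0) :
    Nat.card (AS K u f h0) ≤ Nat.card (AS K u' f' h0') := by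
  obtain ⟨g, hg, h1, h2⟩ := hK (F ∙ u) (LinearMap.ker f) (F ∙ u') (LinearMap.ker f') (pt_span hu)
    (hy_ker hf) (pt_span hu') (hy_ker hf')
    (by rw [span_singleton_le_iff_mem]; exact h0) (by rw [span_singleton_le_iff_mem]; exact h0')
  rw [im_span_singleton] at h1
  obtain ⟨c, hc⟩ : ∃ c : F, c • u' = g u := by
    have : g u ∈ F ∙ u' := by rw [← h1]; exact mem_span_singleton_self _
    exact mem_span_singleton.1 this
  have hc0 : c ≠ 0 := by
    rintro rfl
    rw [zero_smul] at hc
    exact hu ((g.map_eq_zero_iff).1 hc.symm)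
  set f1 : Dual F V := f ∘ₗ (g⁻¹ : V ≃ₗ[F] V).toLinearMap with hf1
  obtain ⟨d, hd⟩ : ∃ d : F, d • f' = f1 := by
    -- both functionals have the same kernel
    obtain ⟨w, hw⟩ : ∃ w, f' w ≠ 0 := by
      by_contra hcon
      push Not at hcon
      exact hf' (LinearMap.ext hcon)
    refine ⟨f1 w * (f' w)⁻¹, LinearMap.ext fun v => ?_⟩
    have h3 : v - (f' v * (f' w)⁻¹) • w ∈ LinearMap.ker f' := by
      rw [LinearMap.mem_ker, map_sub, map_smul, smul_eq_mul, mul_assoc, inv_mul_cancel₀ hw,
        mul_one, sub_self]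
    rw [← h2, mem_im] at h3
    have h4 : f1 (v - (f' v * (f' w)⁻¹) • w) = 0 := h3
    rw [map_sub, map_smul, smul_eq_mul, sub_eq_zero] at h4
    rw [LinearMap.smul_apply, smul_eq_mul, h4]
    ring
  have hd0 : d ≠ 0 := by
    rintro rfl
    rw [zero_smul] at hd
    apply hf
    ext v
    have : f1 (g v) = 0 := by rw [← hd]; rfl
    have h5 : g⁻¹ (g v) = v := g.symm_apply_apply v
    rw [hf1, LinearMap.comp_apply] at this
    change f (g⁻¹ (g v)) = 0 at this
    rw [h5] at this
    exact this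
  have hmap : ∀ a ∈ AS K u f h0, (c * (a * d)) ∈ AS K u' f' h0' := by
    intro a ha
    have h6 := InK.conj (mem_AS.1 ha) hg
    rw [← hc] at h6
    have h7 := h6.smul
    rw [mem_AS]
    have h8 : c • ((a • f) ∘ₗ (g⁻¹ : V ≃ₗ[F] V).toLinearMap) = (c * (a * d)) • f' := by
      have : (a • f) ∘ₗ (g⁻¹ : V ≃ₗ[F] V).toLinearMap = a • f1 := rfl
      rw [this, ← hd, smul_smul, smul_smul, mul_assoc]
    rwa [h8] at h7
  refine Nat.card_le_card_of_injective
    (fun a : AS K u f h0 => (⟨c * (a * d), hmap a a.2⟩ : AS K u' f' h0')) ?_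
  intro a b hab
  have h9 : c * ((a : F) * d) = c * ((b : F) * d) := congrArg Subtype.val hab
  exact Subtype.ext (mul_right_cancel₀ hd0 (mul_left_cancel₀ hc0 h9))

theorem card_AS_eq (hK : FlagPH K) {u u' : V} {f f' : Dual F V} (hu : u ≠ 0) (hu' : u' ≠ 0)
    (hf : f ≠ 0) (hf' : f' ≠ 0) (h0 : f u = 0) (h0' : f' u' = 0) :
    Nat.card (AS K u f h0) = Nat.card (AS K u' f' h0') :=
  le_antisymm (card_AS_le hK hu hu' hf hf' h0 h0') (card_AS_le hK hu' hu hf' hf h0' h0)

open scoped Classical in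
theorem count (hK : FlagPH K) {u : V} (hu : u ≠ 0) (r : ℕ)
    (hr : ∀ (f : Dual F V) (hf : f ≠ 0) (h0 : f u = 0), Nat.card (AS K u f h0) = r)
    (hr1 : 1 ≤ r) :
    ((Nat.card F : ℤ) - 1) * (Nat.card (AU K u) - 1) =
      ((Nat.card F : ℤ) ^ (finrank F V - 1) - 1) * (r - 1) := by
  have : Fintype F := Fintype.ofFinite F
  have : Finite (Dual F V) := Module.finite_of_finite F
  have : Fintype (Dual F V) := Fintype.ofFinite _
  set S : Finset (Dual F V) := Finset.univ.filter (fun f => f ≠ 0 ∧ f u = 0) with hS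
  set T : Finset F := Finset.univ.filter (fun a => a ≠ 0) with hT
  have hbi := Finset.sum_card_bipartiteAbove_eq_sum_card_bipartiteBelow
    (s := S) (t := T) (fun (f : Dual F V) (a : F) => InK K (a • f) u)
  -- above
  have habove : ∀ f ∈ S, ((T.bipartiteAbove (fun (f : Dual F V) (a : F) => InK K (a • f) u) f).card : ℤ)
      = r - 1 := by
    intro f hf
    rw [hS, Finset.mem_filter] at hf
    have h1 := hr f hf.2.1 hf.2.2
    have h2 : (Finset.univ.filter (fun a : F => a ∈ AS K u f hf.2.2)).card = r := by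
      rw [← h1, Nat.card_eq_fintype_card]
      exact (Fintype.card_subtype _).symm
    have h3 : T.bipartiteAbove (fun (f : Dual F V) (a : F) => InK K (a • f) u) f =
        (Finset.univ.filter (fun a : F => a ∈ AS K u f hf.2.2)).erase 0 := by
      ext a
      simp only [Finset.bipartiteAbove, hT, Finset.mem_filter, Finset.mem_univ, true_and,
        Finset.mem_erase, mem_AS]
    rw [h3, Finset.card_erase_of_mem, h2]
    · push_cast [hr1]; ring
    · simp only [Finset.mem_filter, Finset.mem_univ, true_and]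
      exact (AS K u f hf.2.2).zero_mem
  have hbelow : ∀ a ∈ T, ((S.bipartiteBelow (fun (f : Dual F V) (a : F) => InK K (a • f) u) a).card : ℤ)
      = Nat.card (AU K u) - 1 := by
    intro a ha
    rw [hT, Finset.mem_filter] at ha
    have ha0 : a ≠ 0 := ha.2
    have h2 : (Finset.univ.filter (fun f : Dual F V => f ∈ AU K u)).card = Nat.card (AU K u) := by
      rw [Nat.card_eq_fintype_card]
      exact (Fintype.card_subtype _).symm
    have h3 : (S.bipartiteBelow (fun (f : Dual F V) (a : F) => InK K (a • f) u) a).card =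
        ((Finset.univ.filter (fun f : Dual F V => f ∈ AU K u)).erase 0).card := by
      apply Finset.card_bij (fun f _ => a • f)
      · intro f hf
        simp only [Finset.bipartiteBelow, hS, Finset.mem_filter, Finset.mem_univ, true_and] at hf
        simp only [Finset.mem_erase, Finset.mem_filter, Finset.mem_univ, true_and, mem_AU]
        refine ⟨smul_ne_zero ha0 hf.1.1, ?_, hf.2⟩
        rw [LinearMap.smul_apply, hf.1.2, smul_zero]
      · intro f _ f' _ h
        exact smul_right_injective _ ha0 h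
      · intro f hf
        simp only [Finset.mem_erase, Finset.mem_filter, Finset.mem_univ, true_and, mem_AU] at hf
        refine ⟨a⁻¹ • f, ?_, ?_⟩
        · simp only [Finset.bipartiteBelow, hS, Finset.mem_filter, Finset.mem_univ, true_and]
          refine ⟨⟨smul_ne_zero (inv_ne_zero ha0) hf.1, ?_⟩, ?_⟩
          · rw [LinearMap.smul_apply, hf.2.1, smul_zero]
          · rw [smul_smul, mul_inv_cancel₀ ha0, one_smul]
            exact hf.2.2
        · rw [smul_smul, mul_inv_cancel₀ ha0, one_smul]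
    rw [h3, Finset.card_erase_of_mem, h2]
    · have : 1 ≤ Nat.card (AU K u) := Nat.card_pos
      push_cast [this]; ring
    · simp only [Finset.mem_filter, Finset.mem_univ, true_and]
      exact (AU K u).zero_mem
  have hTc : (T.card : ℤ) = Nat.card F - 1 := by
    have h1 : T = Finset.univ.erase 0 := by
      ext a
      simp [hT]
    rw [h1, Finset.card_erase_of_mem (Finset.mem_univ _), Finset.card_univ, Nat.card_eq_fintype_card]
    have : 1 ≤ Fintype.card F := Fintype.card_pos
    push_cast [this]; ring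
  have hSc : (S.card : ℤ) = (Nat.card F : ℤ) ^ (finrank F V - 1) - 1 := by
    set E : Dual F (Dual F V) := Dual.eval F V u with hE
    have hE0 : E ≠ 0 := by
      intro h
      apply hu
      have := (Module.forall_dual_apply_eq_zero_iff F u).1 (fun f => by
        have := congrArg (fun (e : Dual F (Dual F V)) => e f) h
        exact this)
      exact this
    have h1 : Hy (LinearMap.ker E) := hy_ker hE0
    have h2 : finrank F (LinearMap.ker E) = finrank F V - 1 := by
      have := h1
      rw [Hy, Subspace.dual_finrank_eq] at this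
      omega
    have h3 : Nat.card (LinearMap.ker E) = Nat.card F ^ (finrank F V - 1) := by
      rw [← h2]
      exact Module.natCard_eq_pow_finrank (K := F) (V := LinearMap.ker E)
    have h4 : (Finset.univ.filter (fun f : Dual F V => f ∈ LinearMap.ker E)).card =
        Nat.card (LinearMap.ker E) := by
      rw [Nat.card_eq_fintype_card]
      exact (Fintype.card_subtype _).symm
    have h5 : S = (Finset.univ.filter (fun f : Dual F V => f ∈ LinearMap.ker E)).erase 0 := by
      ext f
      simp only [hS, Finset.mem_filter, Finset.mem_univ, true_and, Finset.mem_erase,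
        LinearMap.mem_ker]
      rfl
    rw [h5, Finset.card_erase_of_mem, h4, h3]
    · have : 1 ≤ Nat.card F ^ (finrank F V - 1) := Nat.one_le_pow _ _ Nat.card_pos
      push_cast [this]; ring
    · simp only [Finset.mem_filter, Finset.mem_univ, true_and]
      exact (LinearMap.ker E).zero_mem
  have e1 : ((∑ f ∈ S, (T.bipartiteAbove (fun (f : Dual F V) (a : F) => InK K (a • f) u) f).card : ℕ)
      : ℤ) = (S.card : ℤ) * (r - 1) := by
    push_cast
    rw [Finset.sum_congr rfl habove, Finset.sum_const, nsmul_eq_mul]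
  have e2 : ((∑ a ∈ T, (S.bipartiteBelow (fun (f : Dual F V) (a : F) => InK K (a • f) u) a).card : ℕ)
      : ℤ) = (T.card : ℤ) * (Nat.card (AU K u) - 1) := by
    push_cast
    rw [Finset.sum_congr rfl hbelow, Finset.sum_const, nsmul_eq_mul]
  rw [← hSc, ← e1, hbi, e2, hTc]

theorem trv : GL4.TRV := by
  intro F _ _ V _ _ _ K hn hK hex g hg
  obtain ⟨g0, hg0K, hg01, f0, u0, h0, hg0⟩ := hex
  obtain ⟨hg1, f, u, hfu, hgv⟩ := hg
  have hnz : ∀ (g : V ≃ₗ[F] V) (f : Dual F V) (u : V), g ≠ 1 → (∀ v, g v = v + f v • u) →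
      f ≠ 0 ∧ u ≠ 0 := by
    intro g f u h1 h2
    refine ⟨?_, ?_⟩
    · rintro rfl
      apply h1
      ext v
      rw [h2]
      simp
    · rintro rfl
      apply h1
      ext v
      rw [h2]
      simp
  obtain ⟨hf0, hu0⟩ := hnz g0 f0 u0 hg01 hg0
  obtain ⟨hf, hu⟩ := hnz g f u hg1 hgv
  set r := Nat.card (AS K u0 f0 h0) with hr
  have hrr : ∀ (f : Dual F V) (hf : f ≠ 0) (h0 : f u = 0), Nat.card (AS K u f h0) = r :=
    fun f' hf' h0' => card_AS_eq hK hu hu0 hf' hf0 h0' h0
  have hr2 : 2 ≤ r := by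
    have : Nontrivial (AS K u0 f0 h0) := by
      refine ⟨⟨0, ⟨1, ?_⟩, ?_⟩⟩
      · rw [mem_AS, one_smul]
        exact ⟨g0, hg0K, hg0⟩
      · intro h
        exact zero_ne_one (congrArg Subtype.val h)
    exact Finite.one_lt_card
  have hF2 : 2 ≤ Nat.card F := Finite.one_lt_card
  obtain ⟨p, hchar⟩ := CharP.exists F
  have hp : p.Prime := CharP.char_is_prime F p
  have : Fact p.Prime := ⟨hp⟩
  obtain ⟨e, he⟩ : ∃ e, Nat.card F = p ^ e := by
    have : Fintype F := Fintype.ofFinite F
    obtain ⟨n, h1, h2⟩ := FiniteField.card F p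
    exact ⟨n, by rw [Nat.card_eq_fintype_card, h2]⟩
  have hfinD : Finite (Dual F V) := Module.finite_of_finite F
  have hcount := count hK hu r hrr (by omega)
  have hMd : Nat.card (AU K u) ∣ p ^ (e * finrank F V) := by
    have h1 : Nat.card (AU K u) ∣ Nat.card (Dual F V) := AddSubgroup.card_addSubgroup_dvd_card _
    have h2 : Nat.card (Dual F V) = Nat.card F ^ finrank F (Dual F V) :=
      Module.natCard_eq_pow_finrank
    rw [h2, Subspace.dual_finrank_eq, he, ← pow_mul] at h1
    exact h1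
  obtain ⟨b, -, hb⟩ := (Nat.dvd_prime_pow hp).1 hMd
  have hrM : r ∣ Nat.card (AU K u) := by
    rw [← hrr f hf hfu]
    let φ : AS K u f hfu →+ AU K u :=
      { toFun := fun a => ⟨(a : F) • f, by
          rw [mem_AU]
          refine ⟨?_, a.2⟩
          rw [LinearMap.smul_apply, hfu, smul_zero]⟩
        map_zero' := by
          apply Subtype.ext
          exact zero_smul F f
        map_add' := by
          intro a b
          apply Subtype.ext
          exact add_smul (a : F) (b : F) f }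
    have hφ : Function.Injective φ := by
      intro a b h
      have h1 : (a : F) • f = (b : F) • f := congrArg Subtype.val h
      exact Subtype.ext (smul_left_injective F hf h1)
    exact AddSubgroup.card_dvd_of_injective φ hφ
  have hrq : r ∣ Nat.card F := AddSubgroup.card_addSubgroup_dvd_card (AS K u0 f0 h0)
  have hfin : r = Nat.card F :=
    num p (Nat.card F) (finrank F V) r (Nat.card (AU K u)) hp ⟨e, he⟩ hF2 hn hr2 hrq ⟨b, hb⟩ hrM
      hcount
  have htop : AS K u f hfu = ⊤ := by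
    apply AddSubgroup.eq_top_of_card_eq
    rw [hrr f hf hfu, hfin]
  have h1 : (1 : F) ∈ AS K u f hfu := by rw [htop]; exact AddSubgroup.mem_top _
  rw [mem_AS, one_smul] at h1
  obtain ⟨g', hg'K, hg'⟩ := h1
  have : g = g' := by
    ext v
    rw [hgv, hg']
  rw [this]
  exact hg'K

end Pool.Agent.Helper32.GL4TRV
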